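import Mathlib

set_option autoImplicit false
open Filter Topology

namespace Pool.Agent.Helper64.Hit

/-- bounded real functions -/
def Bd {Ω : Type} (F : Ω → ℝ) : Prop := ∃ b : ℝ, ∀ ω, |F ω| ≤ b

/-- a finitely additive positive functional on bounded functions -/
structure FA (Ω : Type) (L : (Ω → ℝ) → ℝ) : Prop where
  add : ∀ F G : Ω → ℝ, Bd F → Bd G → L (fun ω => F ω + G ω) = L F + L G
  smul : ∀ (a : ℝ) (F : Ω → ℝ), Bd F → L (fun ω => a * F ω) = a * L F
  mono : ∀ F G : Ω → ℝ, Bd F → Bd G → (∀ ω, F ω ≤ G ω) → L F ≤ L G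

namespace Bd

variable {Ω : Type}

lemma const (c : ℝ) : Bd (fun _ : Ω => c) := ⟨|c|, fun _ => le_rfl⟩

lemma add {F G : Ω → ℝ} (hF : Bd F) (hG : Bd G) : Bd (fun ω => F ω + G ω) := by
  obtain ⟨a, ha⟩ := hF
  obtain ⟨b, hb⟩ := hG
  exact ⟨a + b, fun ω => (abs_add_le _ _).trans (add_le_add (ha ω) (hb ω))⟩

lemma mul {F G : Ω → ℝ} (hF : Bd F) (hG : Bd G) : Bd (fun ω => F ω * G ω) := by
  obtain ⟨a, ha⟩ := hF
  obtain ⟨b, hb⟩ := hG
  refine ⟨a * b, fun ω => ?_⟩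
  rw [abs_mul]
  exact mul_le_mul (ha ω) (hb ω) (abs_nonneg _) ((abs_nonneg _).trans (ha ω))

lemma abs {F : Ω → ℝ} (hF : Bd F) : Bd (fun ω => |F ω|) := by
  obtain ⟨a, ha⟩ := hF
  exact ⟨a, fun ω => by rw [abs_abs]; exact ha ω⟩

lemma neg {F : Ω → ℝ} (hF : Bd F) : Bd (fun ω => - F ω) := by
  obtain ⟨a, ha⟩ := hF
  exact ⟨a, fun ω => by rw [abs_neg]; exact ha ω⟩

lemma sub {F G : Ω → ℝ} (hF : Bd F) (hG : Bd G) : Bd (fun ω => F ω - G ω) := by
  obtain ⟨a, ha⟩ := hF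
  obtain ⟨b, hb⟩ := hG
  exact ⟨a + b, fun ω => (abs_sub _ _).trans (add_le_add (ha ω) (hb ω))⟩

lemma sum {ι : Type} (s : Finset ι) {F : ι → Ω → ℝ} (hF : ∀ i ∈ s, Bd (F i)) :
    Bd (fun ω => ∑ i ∈ s, F i ω) := by
  classical
  induction s using Finset.induction_on with
  | empty => simpa using const (Ω := Ω) 0
  | insert a s ha ih =>
    have h1 := hF a (Finset.mem_insert_self _ _)
    have h2 := ih (fun i hi => hF i (Finset.mem_insert_of_mem hi))
    have := h1.add h2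
    simpa [Finset.sum_insert ha] using this

lemma ite {F : Ω → ℝ} (hF : Bd F) (P : Ω → Prop) [∀ ω, Decidable (P ω)] :
    Bd (fun ω => if P ω then F ω else 0) := by
  obtain ⟨a, ha⟩ := hF
  refine ⟨a, fun ω => ?_⟩
  by_cases h : P ω
  · simp only [h, if_true]; exact ha ω
  · simp only [h, if_false, abs_zero]; exact (abs_nonneg _).trans (ha ω)

end Bd

namespace FA

variable {Ω : Type} {L : (Ω → ℝ) → ℝ} (hL : FA Ω L)
include hL

lemma zero : L (fun _ => 0) = 0 := by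
  have := hL.smul 0 (fun _ => 0) (Bd.const 0)
  simpa using this

lemma nonneg {F : Ω → ℝ} (hF : Bd F) (h : ∀ ω, 0 ≤ F ω) : 0 ≤ L F := by
  have := hL.mono (fun _ => 0) F (Bd.const 0) hF h
  rwa [hL.zero] at this

lemma neg {F : Ω → ℝ} (hF : Bd F) : L (fun ω => - F ω) = - L F := by
  have := hL.smul (-1) F hF
  simpa using this

lemma sub {F G : Ω → ℝ} (hF : Bd F) (hG : Bd G) : L (fun ω => F ω - G ω) = L F - L G := by
  have := hL.add F (fun ω => - G ω) hF hG.neg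
  rw [hL.neg hG] at this
  simpa [sub_eq_add_neg] using this

lemma sum {ι : Type} (s : Finset ι) {F : ι → Ω → ℝ} (hF : ∀ i ∈ s, Bd (F i)) :
    L (fun ω => ∑ i ∈ s, F i ω) = ∑ i ∈ s, L (F i) := by
  classical
  induction s using Finset.induction_on with
  | empty => simpa using hL.zero
  | insert a s ha ih =>
    have h1 := hF a (Finset.mem_insert_self _ _)
    have h2 := ih (fun i hi => hF i (Finset.mem_insert_of_mem hi))
    have h3 := hL.add (F a) (fun ω => ∑ i ∈ s, F i ω) h1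
      (Bd.sum s (fun i hi => hF i (Finset.mem_insert_of_mem hi)))
    simp only [Finset.sum_insert ha]
    rw [h3, h2]

end FA

lemma ite_nn {P : Prop} [Decidable P] {x : ℝ} (hx : 0 ≤ x) : 0 ≤ (if P then x else 0) := by
  split_ifs
  · exact hx
  · exact le_rfl

/-- Greedy choice of signs. -/
lemma exists_signs {Ω : Type} {L : (Ω → ℝ) → ℝ} (hL : FA Ω L) (Y : ℕ → Ω → ℝ)
    (hY : ∀ i, Bd (Y i)) (s : Finset ℕ) :
    ∃ r : ℕ → ℝ, (∀ i, |r i| = 1) ∧
      L (fun ω => (∑ i ∈ s, r i * Y i ω) * (∑ i ∈ s, r i * Y i ω)) ≤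
        ∑ i ∈ s, L (fun ω => Y i ω * Y i ω) := by
  classical
  induction s using Finset.induction_on with
  | empty =>
    refine ⟨fun _ => 1, by simp, ?_⟩
    simp [hL.zero]
  | insert a s ha ih =>
    obtain ⟨r, hr1, hr2⟩ := ih
    set S : Ω → ℝ := fun ω => ∑ i ∈ s, r i * Y i ω with hS
    have hSb : Bd S := Bd.sum s (fun i _ => (Bd.const (r i)).mul (hY i))
    have key : ∀ e : ℝ, |e| = 1 → e * L (fun ω => S ω * Y a ω) ≤ 0 →
        ∃ r' : ℕ → ℝ, (∀ i, |r' i| = 1) ∧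
        L (fun ω => (∑ i ∈ insert a s, r' i * Y i ω) * (∑ i ∈ insert a s, r' i * Y i ω)) ≤
        ∑ i ∈ insert a s, L (fun ω => Y i ω * Y i ω) := by
      intro e he hneg
      refine ⟨Function.update r a e, fun i => ?_, ?_⟩
      · by_cases h : i = a
        · subst h; simp [he]
        · simp [Function.update_of_ne h, hr1]
      · have e1 : ∀ ω, ∑ i ∈ insert a s, Function.update r a e i * Y i ω = e * Y a ω + S ω := by
          intro ω
          rw [Finset.sum_insert ha]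
          simp only [Function.update_self, hS]
          congr 1
          refine Finset.sum_congr rfl (fun i hi => ?_)
          have : i ≠ a := fun h => ha (h ▸ hi)
          rw [Function.update_of_ne this]
        have hee : e * e = 1 := by
          have := abs_mul_abs_self e
          rw [he] at this
          linarith
        have e2 : (fun ω => (∑ i ∈ insert a s, Function.update r a e i * Y i ω) *
            (∑ i ∈ insert a s, Function.update r a e i * Y i ω)) =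
            fun ω => (Y a ω * Y a ω) + ((2 * e) * (S ω * Y a ω) + S ω * S ω) := by
          funext ω
          rw [e1 ω]
          have : (e * Y a ω + S ω) * (e * Y a ω + S ω) =
            (e * e) * (Y a ω * Y a ω) + ((2 * e) * (S ω * Y a ω) + S ω * S ω) := by ring
          rw [this, hee, one_mul]
        rw [e2, hL.add _ _ ((hY a).mul (hY a))
          (((Bd.const (2 * e)).mul (hSb.mul (hY a))).add (hSb.mul hSb)),
          hL.add _ _ ((Bd.const (2 * e)).mul (hSb.mul (hY a))) (hSb.mul hSb),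
          hL.smul _ _ (hSb.mul (hY a)), Finset.sum_insert ha]
        nlinarith
    by_cases h : L (fun ω => S ω * Y a ω) ≤ 0
    · exact key 1 (by simp) (by linarith)
    · exact key (-1) (by simp) (by push Not at h; linarith)

/-- Rosenthal's lemma for nonnegative matrices with bounded row sums. -/
lemma rosenthal (m : ℕ → ℕ → ℝ) (C ε : ℝ) (hε : 0 < ε) (h0 : ∀ k j, 0 ≤ m k j)
    (hrow : ∀ k (J : Finset ℕ), ∑ j ∈ J, m k j ≤ C) :
    ∃ ψ : ℕ → ℕ, StrictMono ψ ∧ ∀ (k : ℕ) (s : Finset ℕ), k ∉ s →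
      ∑ j ∈ s, m (ψ k) (ψ j) ≤ ε := by
  classical
  -- entries are bounded
  have hle : ∀ k j, m k j ≤ C := fun k j => by simpa using hrow k {j}
  have hlim : ∀ j, ∃ x, Tendsto (fun k => m k j) (hyperfilter ℕ : Filter ℕ) (𝓝 x) := by
    intro j
    have hc : IsCompact (Set.Icc (0 : ℝ) C) := isCompact_Icc
    obtain ⟨x, -, hx⟩ := hc.ultrafilter_le_nhds ((hyperfilter ℕ).map (fun k => m k j)) (by
      rw [Filter.le_principal_iff]
      change (fun k => m k j) ⁻¹' (Set.Icc (0 : ℝ) C) ∈ (hyperfilter ℕ : Filter ℕ)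
      exact Filter.mem_of_superset (Filter.univ_mem) (fun k _ => ⟨h0 k j, hle k j⟩))
    exact ⟨x, hx⟩
  choose ν hν using hlim
  have hν0 : ∀ j, 0 ≤ ν j := fun j =>
    ge_of_tendsto (hν j) (Filter.Eventually.of_forall (fun k => h0 k j))
  have hνsum : ∀ J : Finset ℕ, ∑ j ∈ J, ν j ≤ C := by
    intro J
    have h1 : Tendsto (fun k => ∑ j ∈ J, m k j) (hyperfilter ℕ : Filter ℕ) (𝓝 (∑ j ∈ J, ν j)) :=
      tendsto_finsetSum _ (fun j _ => hν j)
    exact le_of_tendsto h1 (Filter.Eventually.of_forall (fun k => hrow k J))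
  -- tails of summable nonnegative sequences
  have tail : ∀ (a : ℕ → ℝ), (∀ j, 0 ≤ a j) → (∀ J : Finset ℕ, ∑ j ∈ J, a j ≤ C) → ∀ η : ℝ, 0 < η →
      ∃ N : ℕ, ∀ s : Finset ℕ, (∀ j ∈ s, N ≤ j) → ∑ j ∈ s, a j ≤ η := by
    intro a ha hsum η hη
    have hs : Summable a := summable_of_sum_le ha hsum
    have hs' := summable_iff_vanishing_norm.1 hs η hη
    obtain ⟨S, hS⟩ := hs'
    refine ⟨S.sup id + 1, fun s hs => ?_⟩
    have hd : Disjoint s S := by
      rw [Finset.disjoint_left]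
      intro j hj hjS
      have h1 := hs j hj
      have h2 : j ≤ S.sup id := Finset.le_sup (f := id) hjS
      omega
    exact (le_abs_self _).trans (hS s hd).le
  obtain ⟨J0, hJ0⟩ := tail ν hν0 hνsum (ε / 4) (by linarith)
  have hnext : ∀ n : ℕ, ∃ n' : ℕ, n < n' ∧ (∀ j ≤ n, m n' j ≤ ν j + ε / 8 * (1 / 2) ^ j) ∧
      ∀ s : Finset ℕ, (∀ j ∈ s, n' ≤ j) → ∑ j ∈ s, m n j ≤ ε / 4 := by
    intro n
    obtain ⟨N, hN⟩ := tail (m n) (h0 n) (hrow n) (ε / 4) (by linarith)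
    have h1 : ∀ᶠ k in (hyperfilter ℕ : Filter ℕ), ∀ j ∈ Finset.range (n + 1),
        m k j ≤ ν j + ε / 8 * (1 / 2) ^ j := by
      rw [Filter.eventually_all_finset]
      intro j _
      have : ν j < ν j + ε / 8 * (1 / 2) ^ j := by
        have : 0 < ε / 8 * (1 / 2 : ℝ) ^ j := by positivity
        linarith
      exact ((hν j).eventually (gt_mem_nhds this)).mono (fun k hk => le_of_lt hk)
    have h2 : ∀ᶠ k in (hyperfilter ℕ : Filter ℕ), max (n + 1) N ≤ k :=
      Nat.hyperfilter_le_atTop (Filter.eventually_ge_atTop _)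
    obtain ⟨k, hk1, hk2⟩ := (h1.and h2).exists
    refine ⟨k, ?_, fun j hj => hk1 j (Finset.mem_range.2 (by omega)), fun s hs => ?_⟩
    · have := le_max_left (n + 1) N; omega
    · exact hN s (fun j hj => by have := hs j hj; have := le_max_right (n + 1) N; omega)
  choose nx hnx1 hnx2 hnx3 using hnext
  let ψ : ℕ → ℕ := fun k => Nat.rec J0 (fun _ n => nx n) k
  have hψ0 : ψ 0 = J0 := rfl
  have hψs : ∀ k, ψ (k + 1) = nx (ψ k) := fun k => rfl
  have hmono : StrictMono ψ := strictMono_nat_of_lt_succ (fun k => by rw [hψs]; exact hnx1 _)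
  have hJ : ∀ k, J0 ≤ ψ k := fun k => by
    have := hmono.monotone (Nat.zero_le k); rwa [hψ0] at this
  refine ⟨ψ, hmono, fun k s hk => ?_⟩
  have hsplit : ∑ j ∈ s, m (ψ k) (ψ j) =
      ∑ j ∈ s.filter (fun j => j < k), m (ψ k) (ψ j) +
      ∑ j ∈ s.filter (fun j => ¬ j < k), m (ψ k) (ψ j) :=
    (Finset.sum_filter_add_sum_filter_not _ _ _).symm
  rw [hsplit]
  have hA : ∑ j ∈ s.filter (fun j => j < k), m (ψ k) (ψ j) ≤ ε / 4 + ε / 4 := by
    have h1 : ∀ j ∈ s.filter (fun j => j < k), m (ψ k) (ψ j) ≤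
        ν (ψ j) + ε / 8 * (1 / 2) ^ (ψ j) := by
      intro j hj
      have hjk : j < k := (Finset.mem_filter.1 hj).2
      obtain ⟨k', rfl⟩ : ∃ k', k = k' + 1 := ⟨k - 1, by omega⟩
      rw [hψs]
      exact hnx2 _ _ (hmono.monotone (by omega))
    refine (Finset.sum_le_sum h1).trans ?_
    rw [Finset.sum_add_distrib]
    refine add_le_add ?_ ?_
    · have := hJ0 ((s.filter (fun j => j < k)).image ψ) (by
        intro j hj
        obtain ⟨i, -, rfl⟩ := Finset.mem_image.1 hj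
        exact hJ i)
      rwa [Finset.sum_image (fun a _ b _ h => hmono.injective h)] at this
    · rw [← Finset.mul_sum]
      have h2 : ∑ j ∈ s.filter (fun j => j < k), (1 / 2 : ℝ) ^ (ψ j) ≤ 2 := by
        have h3 : ∑ j ∈ (s.filter (fun j => j < k)).image ψ, (1 / 2 : ℝ) ^ j ≤
            ∑' j : ℕ, (1 / 2 : ℝ) ^ j :=
          summable_geometric_two.sum_le_tsum _ (fun j _ => by positivity)
        rw [tsum_geometric_two, Finset.sum_image (fun a _ b _ h => hmono.injective h)] at h3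
        exact h3
      nlinarith
  have hB : ∑ j ∈ s.filter (fun j => ¬ j < k), m (ψ k) (ψ j) ≤ ε / 4 := by
    have := hnx3 (ψ k) ((s.filter (fun j => ¬ j < k)).image ψ) (by
      intro j hj
      obtain ⟨i, hi, rfl⟩ := Finset.mem_image.1 hj
      have hik : ¬ i < k := (Finset.mem_filter.1 hi).2
      have hik2 : i ≠ k := fun h => hk (h ▸ (Finset.mem_filter.1 hi).1)
      rw [← hψs]
      exact hmono.monotone (show k + 1 ≤ i by omega))
    rwa [Finset.sum_image (fun a _ b _ h => hmono.injective h)] at this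
  linarith

open Classical in
/-- If the functional has Schreier lower estimates, the sequence is not equi-integrable. -/
lemma not_ui {Ω : Type} {L : (Ω → ℝ) → ℝ} (hL : FA Ω L) (X : ℕ → Ω → ℝ) (hX : ∀ j, Bd (X j))
    (δ K : ℝ) (hδ : 0 < δ) (hK : L (fun _ => 1) ≤ K)
    (hlow : ∀ n : ℕ, ∀ s : Finset ℕ, s.card ≤ n → (∀ i ∈ s, n ≤ i) → ∀ c : ℕ → ℝ,
      δ * ∑ i ∈ s, |c i| ≤ L (fun ω => |∑ i ∈ s, c i * X i ω|)) :
    ∀ (T : ℝ) (n : ℕ), ∃ i ≥ n, δ / 4 < L (fun ω => if T < |X i ω| then |X i ω| else 0) := by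
  intro T n0
  by_contra hcon
  push Not at hcon
  have hL1 : 0 ≤ L (fun _ => (1 : ℝ)) := hL.nonneg (Bd.const 1) (fun _ => zero_le_one)
  have hK0 : 0 ≤ K := hL1.trans hK
  obtain ⟨N, hN⟩ : ∃ N : ℕ, max ((n0 : ℝ) + 1) (K * (T ^ 2 + 1) / δ + 1) ≤ N := exists_nat_ge _
  have hN1 : (n0 : ℝ) + 1 ≤ N := (le_max_left _ _).trans hN
  have hN2 : K * (T ^ 2 + 1) / δ + 1 ≤ N := (le_max_right _ _).trans hN
  have hNpos : (0 : ℝ) < N := by
    have : (0 : ℝ) ≤ n0 := Nat.cast_nonneg _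
    linarith
  have hNn : n0 ≤ N * N := by
    have h1 : n0 + 1 ≤ N := by exact_mod_cast hN1
    nlinarith
  set n : ℕ := N * N with hn
  let s : Finset ℕ := Finset.Ico n (2 * n)
  have hcard : s.card = n := by simp [s]; omega
  let Y : ℕ → Ω → ℝ := fun i ω => if ¬ T < |X i ω| then X i ω else 0
  have hY : ∀ i, Bd (Y i) := fun i => (hX i).ite (fun ω => ¬ T < |X i ω|)
  obtain ⟨r, hr1, hr2⟩ := exists_signs hL Y hY s
  have hZ : ∀ i, Bd (fun ω => if T < |X i ω| then |X i ω| else 0) := fun i => (hX i).abs.ite _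
  have hYsq : ∀ i, L (fun ω => Y i ω * Y i ω) ≤ T ^ 2 * K := by
    intro i
    have h1 : L (fun ω => Y i ω * Y i ω) ≤ L (fun _ => T ^ 2 * 1) := by
      refine hL.mono _ _ ((hY i).mul (hY i)) (Bd.const _) (fun ω => ?_)
      simp only [Y]
      by_cases h : T < |X i ω|
      · simp [h]; positivity
      · simp only [h, not_false_eq_true, if_true, mul_one]
        push Not at h
        have h2 : 0 ≤ |X i ω| := abs_nonneg _
        have h3 : X i ω * X i ω = |X i ω| * |X i ω| := (abs_mul_abs_self _).symm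
        rw [h3]
        nlinarith
    rw [hL.smul _ _ (Bd.const 1)] at h1
    exact h1.trans (mul_le_mul_of_nonneg_left hK (by positivity))
  set S : Ω → ℝ := fun ω => ∑ i ∈ s, r i * Y i ω with hS
  have hSb : Bd S := Bd.sum s (fun i _ => (Bd.const (r i)).mul (hY i))
  have hSS : L (fun ω => S ω * S ω) ≤ n * (T ^ 2 * K) := by
    refine hr2.trans ((Finset.sum_le_sum (fun i _ => hYsq i)).trans ?_)
    rw [Finset.sum_const, hcard, nsmul_eq_mul]
  have hSabs : L (fun ω => |S ω|) ≤ N * (K * (T ^ 2 + 1)) / 2 := by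
    have h1 : L (fun ω => |S ω|) ≤
        L (fun ω => (1 / (2 * N)) * (S ω * S ω) + (N / 2) * 1) := by
      refine hL.mono _ _ hSb.abs (((Bd.const _).mul (hSb.mul hSb)).add (Bd.const _)) (fun ω => ?_)
      have h3 : S ω * S ω = |S ω| * |S ω| := (abs_mul_abs_self _).symm
      rw [h3]
      have h4 : 0 ≤ (|S ω| - N) ^ 2 / (2 * N) := by positivity
      have h5 : (|S ω| - N) ^ 2 / (2 * N) =
        (1 / (2 * N)) * (|S ω| * |S ω|) + (N / 2) * 1 - |S ω| := by
        field_simp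
        ring
      linarith
    rw [hL.add _ _ ((Bd.const _).mul (hSb.mul hSb)) (Bd.const _), hL.smul _ _ (hSb.mul hSb),
      hL.smul _ _ (Bd.const 1)] at h1
    have h2 : (1 / (2 * N) : ℝ) * L (fun ω => S ω * S ω) ≤ (1 / (2 * N)) * (n * (T ^ 2 * K)) :=
      mul_le_mul_of_nonneg_left hSS (by positivity)
    have h3 : (N / 2 : ℝ) * L (fun _ => 1) ≤ N / 2 * K := mul_le_mul_of_nonneg_left hK (by positivity)
    have h4 : (1 / (2 * N) : ℝ) * (n * (T ^ 2 * K)) = N * (T ^ 2 * K) / 2 := by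
      rw [hn]; push_cast; field_simp
    rw [h4] at h2
    calc L (fun ω => |S ω|) ≤ N * (T ^ 2 * K) / 2 + N / 2 * K := h1.trans (add_le_add h2 h3)
      _ = N * (K * (T ^ 2 + 1)) / 2 := by ring
  have hmain := hlow n s hcard.le (fun i hi => (Finset.mem_Ico.1 hi).1) r
  have hsum1 : ∑ i ∈ s, |r i| = n := by
    simp only [hr1, Finset.sum_const, hcard, nsmul_eq_mul, mul_one]
  rw [hsum1] at hmain
  have hup : L (fun ω => |∑ i ∈ s, r i * X i ω|) ≤
      L (fun ω => |S ω|) + ∑ i ∈ s, L (fun ω => if T < |X i ω| then |X i ω| else 0) := by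
    rw [← hL.sum s (fun i _ => hZ i), ← hL.add _ _ hSb.abs (Bd.sum s (fun i _ => hZ i))]
    refine hL.mono _ _ (Bd.sum s (fun i _ => (Bd.const (r i)).mul (hX i))).abs
      (hSb.abs.add (Bd.sum s (fun i _ => hZ i))) (fun ω => ?_)
    have e1 : ∑ i ∈ s, r i * X i ω = S ω + ∑ i ∈ s, r i * (X i ω - Y i ω) := by
      simp only [hS]
      rw [← Finset.sum_add_distrib]
      exact Finset.sum_congr rfl (fun i _ => by ring)
    rw [e1]
    refine (abs_add_le _ _).trans (add_le_add le_rfl ?_)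
    refine (Finset.abs_sum_le_sum_abs _ _).trans (Finset.sum_le_sum (fun i _ => ?_))
    rw [abs_mul, hr1, one_mul]
    simp only [Y]
    by_cases h : T < |X i ω|
    · simp [h]
    · simp [h]
  have hsum2 : ∑ i ∈ s, L (fun ω => if T < |X i ω| then |X i ω| else 0) ≤ n * (δ / 4) := by
    refine (Finset.sum_le_sum (fun i hi =>
      hcon i (hNn.trans (Finset.mem_Ico.1 hi).1))).trans ?_
    rw [Finset.sum_const, hcard, nsmul_eq_mul]
  have hfin : δ * (N * N : ℝ) ≤ N * (K * (T ^ 2 + 1)) / 2 + (N * N : ℝ) * (δ / 4) := by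
    have hnr : (n : ℝ) = N * N := by rw [hn]; push_cast; ring
    rw [hnr] at hmain hsum2
    linarith
  have h6 : K * (T ^ 2 + 1) < δ * N := by
    have h7 : K * (T ^ 2 + 1) / δ < N := by linarith
    rw [div_lt_iff₀ hδ] at h7
    linarith
  have h8 : (N : ℝ) * (K * (T ^ 2 + 1)) ≤ N * (δ * N) :=
    mul_le_mul_of_nonneg_left h6.le hNpos.le
  nlinarith [mul_pos hδ (mul_pos hNpos hNpos)]

lemma aux_pos {a C e : ℝ} (ha : 0 ≤ a) (hC : 0 < C) (he : 0 < e) (k : ℕ) :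
    0 < a * C * (8 * 2 ^ (k + 1)) / e + 1 := by
  positivity

lemma aux_le (a C e : ℝ) (he : 0 < e) (k : ℕ) :
    a * C ≤ e / 8 * (1 / 2) ^ (k + 1) * (a * C * (8 * 2 ^ (k + 1)) / e + 1) := by
  have h1 : (1 / 2 : ℝ) ^ (k + 1) * 2 ^ (k + 1) = 1 := by
    rw [← mul_pow]; norm_num
  have h6 : e / 8 * (1 / 2) ^ (k + 1) * (a * C * (8 * 2 ^ (k + 1)) / e + 1) =
    (a * C) * ((1 / 2 : ℝ) ^ (k + 1) * 2 ^ (k + 1)) + e / 8 * (1 / 2) ^ (k + 1) := by
    field_simp
  rw [h6, h1, mul_one]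
  have : 0 < e / 8 * (1 / 2 : ℝ) ^ (k + 1) := by positivity
  linarith

lemma aux_eta (e : ℝ) (n : ℕ) : ((n : ℝ) + 1) * (e / (8 * (n + 1))) = e / 8 := by
  have : (n : ℝ) + 1 ≠ 0 := by positivity
  field_simp

open Classical in
/-- Kadec-Pelczynski and Rosenthal: extraction of an `l1` subsequence. -/
lemma core {Ω : Type} {L : (Ω → ℝ) → ℝ} (hL : FA Ω L) (X : ℕ → Ω → ℝ) (hX : ∀ j, Bd (X j))
    (C ε0 : ℝ) (hε0 : 0 < ε0) (hC : 0 < C) (h1 : ∀ j, L (fun ω => |X j ω|) ≤ C)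
    (hui : ∀ (T : ℝ) (n : ℕ), ∃ i ≥ n, ε0 < L (fun ω => if T < |X i ω| then |X i ω| else 0)) :
    ∃ φ : ℕ → ℕ, StrictMono φ ∧ ∀ (s : Finset ℕ) (c : ℕ → ℝ),
      ε0 / 2 * ∑ k ∈ s, |c k| ≤ L (fun ω => |∑ k ∈ s, c k * X (φ k) ω|) := by
  choose b hb using hX
  have hXb : ∀ j, Bd (X j) := fun j => ⟨b j, hb j⟩
  choose pick hpick1 hpick2 using hui
  let bm : ℕ → ℝ := fun n => ∑ j ∈ Finset.range (n + 1), |b j|
  have hbm0 : ∀ n, 0 ≤ bm n := fun n => Finset.sum_nonneg (fun _ _ => abs_nonneg _)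
  have hbm : ∀ n l, l ≤ n → ∀ ω, |X l ω| ≤ bm n := fun n l hl ω =>
    ((hb l ω).trans (le_abs_self _)).trans
      (Finset.single_le_sum (f := fun j => |b j|) (fun _ _ => abs_nonneg _)
        (Finset.mem_range.2 (by omega)))
  let t : ℕ → ℕ → ℝ := fun k n => bm n * C * (8 * 2 ^ (k + 1)) / ε0 + 1
  have ht : ∀ k n, 0 < t k n := fun k n =>
    aux_pos (hbm0 n) hC hε0 k
  let st : ℕ → ℕ × ℝ := fun k =>
    Nat.rec (pick 1 0, 1) (fun k p => (pick (t k p.1) (p.1 + 1), t k p.1)) k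
  let I : ℕ → ℕ := fun k => (st k).1
  let Tt : ℕ → ℝ := fun k => (st k).2
  have hTs : ∀ k, Tt (k + 1) = t k (I k) := fun k => rfl
  have hIs : ∀ k, I (k + 1) = pick (t k (I k)) (I k + 1) := fun k => rfl
  have hImono : StrictMono I := strictMono_nat_of_lt_succ (fun k => by
    rw [hIs]; have := hpick1 (t k (I k)) (I k + 1); omega)
  have hbig : ∀ k, ε0 < L (fun ω => if Tt k < |X (I k) ω| then |X (I k) ω| else 0) := by
    intro k
    cases k with
    | zero => exact hpick2 1 0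
    | succ k => exact hpick2 (t k (I k)) (I k + 1)
  have hsmall : ∀ l k, l < k →
      L (fun ω => if Tt k < |X (I k) ω| then |X (I l) ω| else 0) ≤ ε0 / 8 * (1 / 2) ^ k := by
    intro l k hlk
    obtain ⟨k', rfl⟩ : ∃ k', k = k' + 1 := ⟨k - 1, by omega⟩
    have hT := ht k' (I k')
    have hle : I l ≤ I k' := hImono.monotone (by omega)
    have h2 : L (fun ω => if Tt (k' + 1) < |X (I (k' + 1)) ω| then |X (I l) ω| else 0) ≤
        L (fun ω => (bm (I k') / t k' (I k')) * |X (I (k' + 1)) ω|) := by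
      refine hL.mono _ _ ((hXb _).abs.ite _) ((Bd.const _).mul (hXb _).abs) (fun ω => ?_)
      rw [hTs]
      by_cases h : t k' (I k') < |X (I (k' + 1)) ω|
      · rw [if_pos h]
        refine (hbm _ _ hle ω).trans ?_
        rw [div_mul_eq_mul_div, le_div_iff₀ hT]
        exact mul_le_mul_of_nonneg_left h.le (hbm0 _)
      · rw [if_neg h]
        exact mul_nonneg (div_nonneg (hbm0 _) hT.le) (abs_nonneg _)
    rw [hL.smul _ _ (hXb _).abs] at h2
    have h3 : bm (I k') / t k' (I k') * L (fun ω => |X (I (k' + 1)) ω|) ≤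
        bm (I k') / t k' (I k') * C :=
      mul_le_mul_of_nonneg_left (h1 _) (div_nonneg (hbm0 _) hT.le)
    refine (h2.trans h3).trans ?_
    rw [div_mul_eq_mul_div, div_le_iff₀ hT]
    exact aux_le (bm (I k')) C ε0 hε0 k'
  let A : ℕ → Ω → Prop := fun k ω => Tt k < |X (I k) ω|
  let B : ℕ → ℕ → Ω → Prop := fun j K ω => A j ω ∧ ∀ l, j < l → l ≤ K → ¬ A l ω
  have hdisj : ∀ K j j' ω, j ≤ K → j' ≤ K → B j K ω → B j' K ω → j = j' := by
    intro K j j' ω hj hj' hB hB'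
    rcases lt_trichotomy j j' with h | h | h
    · exact absurd hB'.1 (hB.2 j' h hj')
    · exact h
    · exact absurd hB.1 (hB'.2 j h hj)
  have hone : ∀ (K : ℕ) (J : Finset ℕ), (∀ j ∈ J, j ≤ K) → ∀ (ω : Ω) (x : ℝ), 0 ≤ x →
      ∑ j ∈ J, (if B j K ω then x else 0) ≤ x := by
    intro K J hJ ω x hx
    by_cases h : ∃ j ∈ J, B j K ω
    · obtain ⟨j, hj, hBj⟩ := h
      rw [Finset.sum_eq_single j]
      · rw [if_pos hBj]
      · intro j' hj' hne
        have : ¬ B j' K ω := fun hB' => hne (hdisj K j' j ω (hJ _ hj') (hJ _ hj) hB' hBj)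
        rw [if_neg this]
      · intro h; exact absurd hj h
    · have h' : ∀ j ∈ J, (if B j K ω then x else 0) = 0 := fun j hj =>
        if_neg (fun hB => h ⟨j, hj, hB⟩)
      rw [Finset.sum_eq_zero h']
      exact hx
  let Mx : ℕ → ℕ → ℕ → ℝ := fun k j K => L (fun ω => if B j K ω then |X (I k) ω| else 0)
  have hMb : ∀ k j K, Bd (fun ω => if B j K ω then |X (I k) ω| else 0) := fun k j K =>
    (hXb (I k)).abs.ite (B j K)
  have hM0 : ∀ k j K, 0 ≤ Mx k j K := fun k j K =>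
    hL.nonneg (hMb k j K) (fun ω => ite_nn (abs_nonneg _))
  have hManti : ∀ k j, Antitone (Mx k j) := by
    intro k j K K' hKK
    refine hL.mono _ _ (hMb k j K') (hMb k j K) (fun ω => ?_)
    by_cases h : B j K' ω
    · have h' : B j K ω := ⟨h.1, fun l hl1 hl2 => h.2 l hl1 (hl2.trans hKK)⟩
      rw [if_pos h, if_pos h']
    · rw [if_neg h]
      exact ite_nn (abs_nonneg _)
  let m : ℕ → ℕ → ℝ := fun k j => ⨅ K, Mx k j K
  have hbdd : ∀ k j, BddBelow (Set.range (Mx k j)) := fun k j => ⟨0, by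
    rintro x ⟨K, rfl⟩; exact hM0 k j K⟩
  have hm0 : ∀ k j, 0 ≤ m k j := fun k j => le_ciInf (fun K => hM0 k j K)
  have hmle : ∀ k j K, m k j ≤ Mx k j K := fun k j K => ciInf_le (hbdd k j) K
  have hrow : ∀ k (J : Finset ℕ), ∑ j ∈ J, m k j ≤ C := by
    intro k J
    set K := J.sup id
    have hJ : ∀ j ∈ J, j ≤ K := fun j hj => Finset.le_sup (f := id) hj
    refine (Finset.sum_le_sum (fun j _ => hmle k j K)).trans ?_
    have : ∑ j ∈ J, Mx k j K = L (fun ω => ∑ j ∈ J, if B j K ω then |X (I k) ω| else 0) :=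
      (hL.sum J (fun j _ => hMb k j K)).symm
    rw [this]
    exact (hL.mono _ _ (Bd.sum J (fun j _ => hMb k j K)) (hXb _).abs
      (fun ω => hone K J hJ ω _ (abs_nonneg _))).trans (h1 _)
  obtain ⟨ψ, hψ, hros⟩ := rosenthal m C (ε0 / 8) (by linarith) hm0 hrow
  refine ⟨fun k => I (ψ k), fun a b' hab => hImono (hψ hab), fun s c => ?_⟩
  -- diagonal lower bound
  have hdiag : ∀ j K, 3 / 4 * ε0 ≤ Mx j j K := by
    intro j K
    have h2 : L (fun ω => if A j ω then |X (I j) ω| else 0) ≤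
        L (fun ω => (if B j K ω then |X (I j) ω| else 0) +
          ∑ l ∈ Finset.Ioc j K, if A l ω then |X (I j) ω| else 0) := by
      refine hL.mono _ _ ((hXb _).abs.ite _)
        ((hMb j j K).add (Bd.sum _ (fun l _ => (hXb _).abs.ite _))) (fun ω => ?_)
      by_cases hA : A j ω
      · rw [if_pos hA]
        by_cases hB : B j K ω
        · rw [if_pos hB]
          exact le_add_of_nonneg_right (Finset.sum_nonneg (fun l _ => ite_nn (abs_nonneg _)))
        · rw [if_neg hB, zero_add]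
          have : ∃ l, j < l ∧ l ≤ K ∧ A l ω := by
            by_contra hno
            exact hB ⟨hA, fun l hl1 hl2 hl3 => hno ⟨l, hl1, hl2, hl3⟩⟩
          obtain ⟨l, hl1, hl2, hl3⟩ := this
          have h3 := Finset.single_le_sum (f := fun l => if A l ω then |X (I j) ω| else 0)
            (fun l _ => ite_nn (abs_nonneg _)) (Finset.mem_Ioc.2 ⟨hl1, hl2⟩)
          have h4 : (if A l ω then |X (I j) ω| else 0) = |X (I j) ω| := if_pos hl3
          exact h4.symm.le.trans h3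
      · rw [if_neg hA]
        exact add_nonneg (ite_nn (abs_nonneg _))
          (Finset.sum_nonneg (fun l _ => ite_nn (abs_nonneg _)))
    rw [hL.add _ _ (hMb j j K) (Bd.sum _ (fun l _ => (hXb _).abs.ite _)),
      hL.sum _ (fun l _ => (hXb _).abs.ite _)] at h2
    have h3 : ∑ l ∈ Finset.Ioc j K, L (fun ω => if A l ω then |X (I j) ω| else 0) ≤ ε0 / 4 := by
      refine (Finset.sum_le_sum (fun l hl => hsmall j l (Finset.mem_Ioc.1 hl).1)).trans ?_
      rw [← Finset.mul_sum]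
      have h4 : ∑ l ∈ Finset.Ioc j K, (1 / 2 : ℝ) ^ l ≤ ∑' j : ℕ, (1 / 2 : ℝ) ^ j :=
        summable_geometric_two.sum_le_tsum _ (fun j _ => by positivity)
      rw [tsum_geometric_two] at h4
      have h5 := mul_le_mul_of_nonneg_left h4 (show 0 ≤ ε0 / 8 from (div_pos hε0 (by norm_num)).le)
      linarith only [h5]
    have h5 := hbig j
    have h6 : L (fun ω => if A j ω then |X (I j) ω| else 0) =
      L (fun ω => if Tt j < |X (I j) ω| then |X (I j) ω| else 0) := rfl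
    have h7 : Mx j j K = L (fun ω => if B j K ω then |X (I j) ω| else 0) := rfl
    linarith only [h2, h3, h5, h6, h7]
  -- choice of K
  set η : ℝ := ε0 / (8 * (s.card + 1)) with hη
  have hηpos : 0 < η := div_pos hε0 (by positivity)
  have hev : ∀ᶠ K in (atTop : Filter ℕ), (∀ j ∈ s, ψ j ≤ K) ∧
      ∀ k ∈ s, ∀ j ∈ s, Mx (ψ k) (ψ j) K ≤ m (ψ k) (ψ j) + η := by
    refine Filter.Eventually.and ?_ ?_
    · rw [Filter.eventually_all_finset]
      exact fun j _ => Filter.eventually_ge_atTop _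
    · rw [Filter.eventually_all_finset]
      intro k _
      rw [Filter.eventually_all_finset]
      intro j _
      have h2 : Tendsto (Mx (ψ k) (ψ j)) atTop (𝓝 (m (ψ k) (ψ j))) :=
        tendsto_atTop_ciInf (hManti _ _) (hbdd _ _)
      exact (h2.eventually (gt_mem_nhds (show m (ψ k) (ψ j) < m (ψ k) (ψ j) + η from lt_add_of_pos_right _ hηpos))).mono
        (fun K hK => le_of_lt hK)
  obtain ⟨K, hK1, hK2⟩ := hev.exists
  set F : Ω → ℝ := fun ω => ∑ k ∈ s, c k * X (I (ψ k)) ω with hF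
  have hFb : Bd F := Bd.sum s (fun k _ => (Bd.const _).mul (hXb _))
  have hstep1 : L (fun ω => ∑ j ∈ s, if B (ψ j) K ω then |F ω| else 0) ≤ L (fun ω => |F ω|) := by
    refine hL.mono _ _ (Bd.sum s (fun j _ => hFb.abs.ite _)) hFb.abs (fun ω => ?_)
    have h2 := hone K (s.image ψ) (by
      intro j hj
      obtain ⟨i, hi, rfl⟩ := Finset.mem_image.1 hj
      exact hK1 i hi) ω (|F ω|) (abs_nonneg _)
    rwa [Finset.sum_image (fun a _ b _ h => hψ.injective h)] at h2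
  have hstep2 : L (fun ω => ∑ j ∈ s, ((|c j| * (if B (ψ j) K ω then |X (I (ψ j)) ω| else 0)) -
      ∑ k ∈ s.erase j, |c k| * (if B (ψ j) K ω then |X (I (ψ k)) ω| else 0))) ≤
      L (fun ω => ∑ j ∈ s, if B (ψ j) K ω then |F ω| else 0) := by
    refine hL.mono _ _ (Bd.sum s (fun j _ => ((Bd.const _).mul (hMb _ _ _)).sub
      (Bd.sum _ (fun k _ => (Bd.const _).mul (hMb _ _ _)))))
      (Bd.sum s (fun j _ => hFb.abs.ite _)) (fun ω => ?_)
    refine Finset.sum_le_sum (fun j hj => ?_)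
    by_cases hB : B (ψ j) K ω
    · have e0 : ∑ k ∈ s.erase j, |c k| * (if B (ψ j) K ω then |X (I (ψ k)) ω| else 0) =
          ∑ k ∈ s.erase j, |c k| * |X (I (ψ k)) ω| :=
        Finset.sum_congr rfl (fun k _ => by rw [if_pos hB])
      rw [e0, if_pos hB, if_pos hB]
      have e1 : F ω = c j * X (I (ψ j)) ω + ∑ k ∈ s.erase j, c k * X (I (ψ k)) ω := by
        simp only [hF]
        rw [Finset.add_sum_erase s (fun k => c k * X (I (ψ k)) ω) hj]
      have e2 : |∑ k ∈ s.erase j, c k * X (I (ψ k)) ω| ≤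
          ∑ k ∈ s.erase j, |c k| * |X (I (ψ k)) ω| := by
        refine (Finset.abs_sum_le_sum_abs _ _).trans (Finset.sum_le_sum (fun k _ => ?_))
        rw [abs_mul]
      have e3 : |c j * X (I (ψ j)) ω| ≤ |F ω| + |∑ k ∈ s.erase j, c k * X (I (ψ k)) ω| := by
        have : c j * X (I (ψ j)) ω = F ω - ∑ k ∈ s.erase j, c k * X (I (ψ k)) ω := by
          rw [e1]; ring
        rw [this]
        exact abs_sub _ _
      rw [abs_mul] at e3
      linarith only [e2, e3]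
    · have e0 : ∑ k ∈ s.erase j, |c k| * (if B (ψ j) K ω then |X (I (ψ k)) ω| else 0) = 0 :=
        Finset.sum_eq_zero (fun k _ => by rw [if_neg hB, mul_zero])
      rw [e0, if_neg hB, if_neg hB, mul_zero, sub_zero]
  have hstep3 : L (fun ω => ∑ j ∈ s, ((|c j| * (if B (ψ j) K ω then |X (I (ψ j)) ω| else 0)) -
      ∑ k ∈ s.erase j, |c k| * (if B (ψ j) K ω then |X (I (ψ k)) ω| else 0))) =
      ∑ j ∈ s, (|c j| * Mx (ψ j) (ψ j) K - ∑ k ∈ s.erase j, |c k| * Mx (ψ k) (ψ j) K) := by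
    rw [hL.sum s (fun j _ => ((Bd.const _).mul (hMb _ _ _)).sub
      (Bd.sum _ (fun k _ => (Bd.const _).mul (hMb _ _ _))))]
    refine Finset.sum_congr rfl (fun j _ => ?_)
    rw [hL.sub ((Bd.const _).mul (hMb _ _ _)) (Bd.sum _ (fun k _ => (Bd.const _).mul (hMb _ _ _))),
      hL.smul _ _ (hMb _ _ _), hL.sum _ (fun k _ => (Bd.const _).mul (hMb _ _ _))]
    congr 1
    exact Finset.sum_congr rfl (fun k _ => hL.smul _ _ (hMb _ _ _))
  have hswap : ∑ j ∈ s, ∑ k ∈ s.erase j, |c k| * Mx (ψ k) (ψ j) K =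
      ∑ k ∈ s, |c k| * ∑ j ∈ s.erase k, Mx (ψ k) (ψ j) K := by
    simp only [Finset.mul_sum]
    refine Finset.sum_comm' (fun j k => ?_)
    simp only [Finset.mem_erase]
    constructor
    · rintro ⟨h1, h2, h3⟩; exact ⟨⟨fun h => h2 h.symm, h1⟩, h3⟩
    · rintro ⟨⟨h1, h2⟩, h3⟩; exact ⟨h2, fun h => h1 h.symm, h3⟩
  have hoff : ∀ k ∈ s, ∑ j ∈ s.erase k, Mx (ψ k) (ψ j) K ≤ ε0 / 4 := by
    intro k hk
    have h2 : ∑ j ∈ s.erase k, Mx (ψ k) (ψ j) K ≤ ∑ j ∈ s.erase k, (m (ψ k) (ψ j) + η) :=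
      Finset.sum_le_sum (fun j hj => hK2 k hk j (Finset.mem_of_mem_erase hj))
    refine h2.trans ?_
    rw [Finset.sum_add_distrib, Finset.sum_const, nsmul_eq_mul]
    have h3 := hros k (s.erase k) (Finset.notMem_erase k s)
    have h4 : ((s.erase k).card : ℝ) * η ≤ ε0 / 8 := by
      have h5 : ((s.erase k).card : ℝ) ≤ s.card + 1 := by
        have : (s.erase k).card ≤ s.card := Finset.card_erase_le
        have : ((s.erase k).card : ℝ) ≤ s.card := by exact_mod_cast this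
        linarith only [this]
      calc ((s.erase k).card : ℝ) * η ≤ (s.card + 1) * η :=
            mul_le_mul_of_nonneg_right h5 hηpos.le
        _ = ε0 / 8 := aux_eta ε0 s.card
    linarith only [h3, h4]
  have hfinal : ∑ j ∈ s, (|c j| * Mx (ψ j) (ψ j) K - ∑ k ∈ s.erase j, |c k| * Mx (ψ k) (ψ j) K) ≥
      ε0 / 2 * ∑ k ∈ s, |c k| := by
    rw [Finset.sum_sub_distrib, hswap, ← Finset.sum_sub_distrib, Finset.mul_sum]
    refine Finset.sum_le_sum (fun k hk => ?_)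
    have h2 := hdiag (ψ k) K
    have h3 := hoff k hk
    have h4 : 0 ≤ |c k| := abs_nonneg _
    have h5 := mul_le_mul_of_nonneg_left h2 h4
    have h6 := mul_le_mul_of_nonneg_left h3 h4
    linarith only [h5, h6]
  linarith only [hstep1, hstep2, hstep3, hfinal]

/-- index set of atoms -/
def Om (m : ℕ → ℕ) : Type := Σ M : ℕ, Fin (m M)

/-- weights of the atoms -/
noncomputable def wt (m : ℕ → ℕ) (f : ∀ M : ℕ, Fin (m M) → ℕ → ℝ) (ω : Om m) : ℝ :=
  ∑ j ∈ Finset.range ω.1, (1 / 2) ^ (j + 1) * |f ω.1 ω.2 j|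

open Classical in
/-- coordinate functions -/
noncomputable def Yf (m : ℕ → ℕ) (f : ∀ M : ℕ, Fin (m M) → ℕ → ℝ) (j : ℕ) (ω : Om m) : ℝ :=
  if j < ω.1 then f ω.1 ω.2 j / wt m f ω else 0

/-- finite level functionals -/
noncomputable def Sf (m : ℕ → ℕ) (f : ∀ M : ℕ, Fin (m M) → ℕ → ℝ) (F : Om m → ℝ) (M : ℕ) : ℝ :=
  ∑ i : Fin (m M), wt m f ⟨M, i⟩ * F ⟨M, i⟩

/-- limit functional -/
noncomputable def Lf (m : ℕ → ℕ) (f : ∀ M : ℕ, Fin (m M) → ℕ → ℝ) (F : Om m → ℝ) : ℝ :=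
  limUnder (hyperfilter ℕ : Filter ℕ) (Sf m f F)

section Lim

variable {m : ℕ → ℕ} {f : ∀ M : ℕ, Fin (m M) → ℕ → ℝ} {C' : ℝ}

lemma wt_nonneg (ω : Om m) : 0 ≤ wt m f ω := Finset.sum_nonneg (fun j _ => by positivity)

lemma wt_ge (ω : Om m) (j : ℕ) (hj : j < ω.1) :
    (1 / 2) ^ (j + 1) * |f ω.1 ω.2 j| ≤ wt m f ω :=
  Finset.single_le_sum (f := fun j => (1 / 2 : ℝ) ^ (j + 1) * |f ω.1 ω.2 j|)
    (fun j _ => by positivity) (Finset.mem_range.2 hj)

lemma wt_mass (hC : 0 ≤ C') (hcoord : ∀ M j, j < M → ∑ i, |f M i j| ≤ C') (M : ℕ) :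
    ∑ i : Fin (m M), wt m f ⟨M, i⟩ ≤ C' := by
  have h0 : ∑ i : Fin (m M), wt m f ⟨M, i⟩ =
      ∑ j ∈ Finset.range M, ∑ i : Fin (m M), (1 / 2 : ℝ) ^ (j + 1) * |f M i j| := by
    rw [Finset.sum_comm]
    rfl
  rw [h0]
  have h1 : ∀ j ∈ Finset.range M, ∑ i, (1 / 2 : ℝ) ^ (j + 1) * |f M i j| ≤
      (1 / 2) ^ (j + 1) * C' := by
    intro j hj
    rw [← Finset.mul_sum]
    exact mul_le_mul_of_nonneg_left (hcoord M j (Finset.mem_range.1 hj)) (by positivity)
  refine (Finset.sum_le_sum h1).trans ?_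
  rw [← Finset.sum_mul]
  have h2 : ∑ j ∈ Finset.range M, (1 / 2 : ℝ) ^ (j + 1) ≤ 1 := by
    have h3 : ∑ j ∈ Finset.range M, (1 / 2 : ℝ) ^ j ≤ ∑' j : ℕ, (1 / 2 : ℝ) ^ j :=
      summable_geometric_two.sum_le_tsum _ (fun j _ => by positivity)
    rw [tsum_geometric_two] at h3
    have h4 : ∑ j ∈ Finset.range M, (1 / 2 : ℝ) ^ (j + 1) =
        (∑ j ∈ Finset.range M, (1 / 2 : ℝ) ^ j) * (1 / 2) := by
      rw [Finset.sum_mul]
      exact Finset.sum_congr rfl (fun j _ => pow_succ _ _)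
    rw [h4]; linarith
  calc (∑ j ∈ Finset.range M, (1 / 2 : ℝ) ^ (j + 1)) * C' ≤ 1 * C' :=
        mul_le_mul_of_nonneg_right h2 hC
    _ = C' := one_mul _

lemma Yf_bd (j : ℕ) : Bd (Yf m f j) := by
  refine ⟨2 ^ (j + 1), fun ω => ?_⟩
  unfold Yf
  by_cases h : j < ω.1
  · rw [if_pos h]
    by_cases h0 : wt m f ω = 0
    · rw [h0, div_zero, abs_zero]; positivity
    · have hpos : 0 < wt m f ω := lt_of_le_of_ne (wt_nonneg ω) (Ne.symm h0)
      rw [abs_div, abs_of_pos hpos, div_le_iff₀ hpos]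
      have h1 := wt_ge (f := f) ω j h
      have h2 : (2 : ℝ) ^ (j + 1) * ((1 / 2) ^ (j + 1) * |f ω.1 ω.2 j|) ≤
          2 ^ (j + 1) * wt m f ω := mul_le_mul_of_nonneg_left h1 (by positivity)
      have h3 : (2 : ℝ) ^ (j + 1) * ((1 / 2) ^ (j + 1) * |f ω.1 ω.2 j|) = |f ω.1 ω.2 j| := by
        rw [← mul_assoc, ← mul_pow]; norm_num
      rwa [h3] at h2
  · rw [if_neg h, abs_zero]; positivity

lemma Lf_lim (hmass : ∀ M, ∑ i : Fin (m M), wt m f ⟨M, i⟩ ≤ C') (F : Om m → ℝ) (hF : Bd F) :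
    Tendsto (Sf m f F) (hyperfilter ℕ : Filter ℕ) (𝓝 (Lf m f F)) := by
  obtain ⟨b, hb⟩ := hF
  have hb' : ∀ M, Sf m f F M ∈ Set.Icc (-(C' * |b|)) (C' * |b|) := by
    intro M
    rw [Set.mem_Icc, ← abs_le]
    unfold Sf
    refine (Finset.abs_sum_le_sum_abs _ _).trans ?_
    have h1 : ∀ i ∈ (Finset.univ : Finset (Fin (m M))),
        |wt m f ⟨M, i⟩ * F ⟨M, i⟩| ≤ wt m f ⟨M, i⟩ * |b| := by
      intro i _
      rw [abs_mul, abs_of_nonneg (wt_nonneg _)]
      exact mul_le_mul_of_nonneg_left ((hb _).trans (le_abs_self _)) (wt_nonneg _)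
    refine (Finset.sum_le_sum h1).trans ?_
    rw [← Finset.sum_mul]
    exact mul_le_mul_of_nonneg_right (hmass M) (abs_nonneg _)
  unfold Lf
  apply tendsto_nhds_limUnder
  have hc : IsCompact (Set.Icc (-(C' * |b|)) (C' * |b|)) := isCompact_Icc
  obtain ⟨x, -, hx⟩ := hc.ultrafilter_le_nhds ((hyperfilter ℕ).map (Sf m f F)) (by
    rw [Filter.le_principal_iff]
    change (Sf m f F) ⁻¹' (Set.Icc (-(C' * |b|)) (C' * |b|)) ∈ (hyperfilter ℕ : Filter ℕ)
    exact Filter.mem_of_superset (Filter.univ_mem) (fun k _ => hb' k))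
  exact ⟨x, hx⟩

lemma Lf_fa (hmass : ∀ M, ∑ i : Fin (m M), wt m f ⟨M, i⟩ ≤ C') : FA (Om m) (Lf m f) := by
  refine ⟨fun F G hF hG => ?_, fun a F hF => ?_, fun F G hF hG hle => ?_⟩
  · have h1 := (Lf_lim hmass F hF).add (Lf_lim hmass G hG)
    have h2 := Lf_lim hmass _ (hF.add hG)
    have h3 : (fun M => Sf m f F M + Sf m f G M) = Sf m f (fun ω => F ω + G ω) := by
      funext M
      unfold Sf
      rw [← Finset.sum_add_distrib]
      exact Finset.sum_congr rfl (fun i _ => by ring)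
    rw [h3] at h1
    exact tendsto_nhds_unique h2 h1
  · have h1 := (Lf_lim hmass F hF).const_mul a
    have h2 := Lf_lim hmass _ ((Bd.const a).mul hF)
    have h3 : (fun M => a * Sf m f F M) = Sf m f (fun ω => a * F ω) := by
      funext M
      unfold Sf
      rw [Finset.mul_sum]
      exact Finset.sum_congr rfl (fun i _ => by ring)
    rw [h3] at h1
    exact tendsto_nhds_unique h2 h1
  · exact le_of_tendsto_of_tendsto' (Lf_lim hmass F hF) (Lf_lim hmass G hG) (fun M =>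
      Finset.sum_le_sum (fun i _ => mul_le_mul_of_nonneg_left (hle _) (wt_nonneg _)))

lemma Sf_abs (M : ℕ) (φ : ℕ → ℕ) (s : Finset ℕ) (c : ℕ → ℝ) (hsM : ∀ k ∈ s, φ k < M) :
    Sf m f (fun ω => |∑ k ∈ s, c k * Yf m f (φ k) ω|) M =
      ∑ i : Fin (m M), |∑ k ∈ s, c k * f M i (φ k)| := by
  unfold Sf
  refine Finset.sum_congr rfl (fun i _ => ?_)
  have h1 : wt m f ⟨M, i⟩ * |∑ k ∈ s, c k * Yf m f (φ k) ⟨M, i⟩| =
      |∑ k ∈ s, c k * (wt m f ⟨M, i⟩ * Yf m f (φ k) ⟨M, i⟩)| := by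
    have h2 : ∑ k ∈ s, c k * (wt m f ⟨M, i⟩ * Yf m f (φ k) ⟨M, i⟩) =
        wt m f ⟨M, i⟩ * ∑ k ∈ s, c k * Yf m f (φ k) ⟨M, i⟩ := by
      rw [Finset.mul_sum]
      exact Finset.sum_congr rfl (fun k _ => by ring)
    rw [h2, abs_mul, abs_of_nonneg (wt_nonneg _)]
  rw [h1]
  congr 1
  refine Finset.sum_congr rfl (fun k hk => ?_)
  congr 1
  have hkM := hsM k hk
  have e0 : Yf m f (φ k) ⟨M, i⟩ = f M i (φ k) / wt m f ⟨M, i⟩ := if_pos hkM
  rw [e0]
  by_cases h0 : wt m f ⟨M, i⟩ = 0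
  · have h2 := wt_ge (f := f) ⟨M, i⟩ (φ k) hkM
    rw [h0] at h2
    have h3 : |f M i (φ k)| ≤ 0 := by
      have h4 : (0 : ℝ) < (1 / 2) ^ (φ k + 1) := by positivity
      by_contra hcon
      push Not at hcon
      exact absurd h2 (not_le.2 (mul_pos h4 hcon))
    have h5 : f M i (φ k) = 0 := abs_eq_zero.1 (le_antisymm h3 (abs_nonneg _))
    rw [h0, h5, zero_mul]
  · rw [mul_div_cancel₀ _ h0]

end Lim

/-- The comparison of the norm and the limit functional. -/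
lemma Lf_comp {X : Type} [NormedAddCommGroup X] [NormedSpace ℝ X] (u : ℕ → X) (C : ℝ)
    {m : ℕ → ℕ} {f : ∀ M : ℕ, Fin (m M) → ℕ → ℝ}
    (hf : ∀ M, ∀ c : ℕ → ℝ,
      ‖∑ j ∈ Finset.range M, c j • u j‖ ≤ ∑ i, |∑ j ∈ Finset.range M, c j * f M i j| ∧
      ∑ i, |∑ j ∈ Finset.range M, c j * f M i j| ≤ C * ‖∑ j ∈ Finset.range M, c j • u j‖)
    (hmass : ∀ M, ∑ i : Fin (m M), wt m f ⟨M, i⟩ ≤ C)
    (φ : ℕ → ℕ) (s : Finset ℕ) (c : ℕ → ℝ) :
    ‖∑ k ∈ s, c k • u (φ k)‖ ≤ Lf m f (fun ω => |∑ k ∈ s, c k * Yf m f (φ k) ω|) ∧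
    Lf m f (fun ω => |∑ k ∈ s, c k * Yf m f (φ k) ω|) ≤ C * ‖∑ k ∈ s, c k • u (φ k)‖ := by
  classical
  have hbd : Bd (fun ω => |∑ k ∈ s, c k * Yf m f (φ k) ω|) :=
    (Bd.sum s (fun k _ => (Bd.const (c k)).mul (Yf_bd (m := m) (f := f) (φ k)))).abs
  have key : ∀ᶠ M in (hyperfilter ℕ : Filter ℕ),
      ‖∑ k ∈ s, c k • u (φ k)‖ ≤ Sf m f (fun ω => |∑ k ∈ s, c k * Yf m f (φ k) ω|) M ∧
      Sf m f (fun ω => |∑ k ∈ s, c k * Yf m f (φ k) ω|) M ≤ C * ‖∑ k ∈ s, c k • u (φ k)‖ := by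
    have hev : ∀ᶠ M in (hyperfilter ℕ : Filter ℕ), (s.image φ).sup id + 1 ≤ M :=
      Nat.hyperfilter_le_atTop (Filter.eventually_ge_atTop ((s.image φ).sup id + 1))
    filter_upwards [hev] with M hM
    have hsM : ∀ k ∈ s, φ k < M := fun k hk => by
      have h9 : φ k ≤ (s.image φ).sup id := Finset.le_sup (f := id) (Finset.mem_image_of_mem _ hk)
      omega
    obtain ⟨c', hc'⟩ : ∃ c' : ℕ → ℝ, ∀ j, c' j = ∑ k ∈ s.filter (fun k => φ k = j), c k :=
      ⟨_, fun _ => rfl⟩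
    have e1 : ∑ j ∈ Finset.range M, c' j • u j = ∑ k ∈ s, c k • u (φ k) := by
      rw [← Finset.sum_fiberwise_of_maps_to (g := φ) (t := Finset.range M)
        (fun k hk => Finset.mem_range.2 (hsM k hk))]
      refine Finset.sum_congr rfl (fun j _ => ?_)
      rw [hc', Finset.sum_smul]
      refine Finset.sum_congr rfl (fun k hk => ?_)
      rw [(Finset.mem_filter.1 hk).2]
    have e2 : ∀ i, ∑ j ∈ Finset.range M, c' j * f M i j = ∑ k ∈ s, c k * f M i (φ k) := by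
      intro i
      rw [← Finset.sum_fiberwise_of_maps_to (g := φ) (t := Finset.range M)
        (fun k hk => Finset.mem_range.2 (hsM k hk))]
      refine Finset.sum_congr rfl (fun j _ => ?_)
      rw [hc', Finset.sum_mul]
      refine Finset.sum_congr rfl (fun k hk => ?_)
      rw [(Finset.mem_filter.1 hk).2]
    have h1 := hf M c'
    simp only [e1, e2] at h1
    rw [Sf_abs M φ s c hsM]
    exact h1
  exact ⟨ge_of_tendsto (Lf_lim hmass _ hbd) (key.mono (fun M h => h.1)),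
    le_of_tendsto (Lf_lim hmass _ hbd) (key.mono (fun M h => h.2))⟩

/-- H1: a sequence with uniform L1-forms on all initial segments and Schreier lower l1 estimates has a
subsequence with a lower l1 estimate. -/
theorem l1_extract {X : Type} [NormedAddCommGroup X] [NormedSpace ℝ X] (u : ℕ → X) (δ C : ℝ)
    (hδ : 0 < δ) (hu : ∀ n, ‖u n‖ ≤ 1)
    (hform : ∀ M : ℕ, ∃ (m : ℕ) (f : Fin m → ℕ → ℝ), ∀ c : ℕ → ℝ,
      ‖∑ j ∈ Finset.range M, c j • u j‖ ≤ ∑ i, |∑ j ∈ Finset.range M, c j * f i j| ∧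
      ∑ i, |∑ j ∈ Finset.range M, c j * f i j| ≤ C * ‖∑ j ∈ Finset.range M, c j • u j‖)
    (hlow : ∀ n : ℕ, ∀ s : Finset ℕ, s.card ≤ n → (∀ i ∈ s, n ≤ i) → ∀ c : ℕ → ℝ,
      δ * ∑ i ∈ s, |c i| ≤ ‖∑ i ∈ s, c i • u i‖) :
    ∃ φ : ℕ → ℕ, StrictMono φ ∧ ∃ δ' : ℝ, 0 < δ' ∧ ∀ (s : Finset ℕ) (c : ℕ → ℝ),
      δ' * ∑ k ∈ s, |c k| ≤ ‖∑ k ∈ s, c k • u (φ k)‖ := by
  classical
  choose m f hf using hform
  obtain ⟨C', hC'1, hCC'⟩ : ∃ C' : ℝ, 1 ≤ C' ∧ C ≤ C' := ⟨max C 1, le_max_right _ _, le_max_left _ _⟩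
  have hC'0 : 0 < C' := by linarith
  have hf' : ∀ M, ∀ c : ℕ → ℝ,
      ‖∑ j ∈ Finset.range M, c j • u j‖ ≤ ∑ i, |∑ j ∈ Finset.range M, c j * f M i j| ∧
      ∑ i, |∑ j ∈ Finset.range M, c j * f M i j| ≤ C' * ‖∑ j ∈ Finset.range M, c j • u j‖ :=
    fun M c => ⟨(hf M c).1, (hf M c).2.trans (mul_le_mul_of_nonneg_right hCC' (norm_nonneg _))⟩
  -- bound on coordinates
  have hcoord : ∀ M j, j < M → ∑ i, |f M i j| ≤ C' := by
    intro M j hj
    have h1 := (hf' M (fun k => if k = j then 1 else 0)).2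
    have e1 : ∀ i, ∑ k ∈ Finset.range M, (if k = j then (1 : ℝ) else 0) * f M i k = f M i j := by
      intro i
      rw [Finset.sum_eq_single j]
      · simp
      · intro k _ hk; simp [hk]
      · intro h; exact absurd (Finset.mem_range.2 hj) h
    have e2 : ∑ k ∈ Finset.range M, (if k = j then (1 : ℝ) else 0) • u k = u j := by
      rw [Finset.sum_eq_single j]
      · simp
      · intro k _ hk; simp [hk]
      · intro h; exact absurd (Finset.mem_range.2 hj) h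
    simp only [e1, e2] at h1
    refine h1.trans ?_
    calc C' * ‖u j‖ ≤ C' * 1 := mul_le_mul_of_nonneg_left (hu j) hC'0.le
      _ = C' := mul_one _
  have hmass : ∀ M, ∑ i : Fin (m M), wt m f ⟨M, i⟩ ≤ C' := wt_mass hC'0.le hcoord
  have hL : FA (Om m) (Lf m f) := Lf_fa hmass
  have hL1 : Lf m f (fun _ => 1) ≤ C' := by
    refine le_of_tendsto (Lf_lim hmass _ (Bd.const 1)) (Filter.Eventually.of_forall (fun M => ?_))
    unfold Sf
    simp only [mul_one]
    exact hmass M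
  have hcomp := fun φ s c => Lf_comp u C' hf' hmass φ s c
  have hY1 : ∀ j, Lf m f (fun ω => |Yf m f j ω|) ≤ C' := by
    intro j
    have h1 := (hcomp (fun _ => j) {0} (fun _ => 1)).2
    simp only [Finset.sum_singleton, one_mul, one_smul] at h1
    exact h1.trans (by
      calc C' * ‖u j‖ ≤ C' * 1 := mul_le_mul_of_nonneg_left (hu j) hC'0.le
        _ = C' := mul_one _)
  have hui := not_ui hL (Yf m f) Yf_bd δ C' hδ hL1 (fun n s hs hmin c =>
    (hlow n s hs hmin c).trans (hcomp id s c).1)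
  obtain ⟨φ, hφ, hφ2⟩ := core hL (Yf m f) Yf_bd C' (δ / 4) (by linarith) hC'0 hY1 hui
  refine ⟨φ, hφ, δ / 4 / 2 / C', by positivity, fun s c => ?_⟩
  have h1 := (hφ2 s c).trans (hcomp φ s c).2
  rw [div_mul_eq_mul_div, div_le_iff₀ hC'0]
  linarith

end Pool.Agent.Helper64.Hit
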